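import Pool.Agent.helper81.DI.SpecB

/-! B10: Clifford theory for cyclic quotients inside a group. -/

set_option autoImplicit false

namespace Pool.Agent.DI

open Pool.Agent.helper58.DC

section
variable {Γ : Type} [Group Γ] (N : Subgroup Γ)

/-- restriction of functions -/
def B10_res (φ : Γ → ℂ) : N → ℂ := fun h => φ (h : Γ)

open Classical in
/-- extension by zero -/
noncomputable def B10_ex (f : N → ℂ) : Γ → ℂ := fun g => if h : g ∈ N then f ⟨g, h⟩ else 0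

lemma B10_res_ex (f : N → ℂ) : B10_res N (B10_ex N f) = f := by
  funext h
  unfold B10_res B10_ex
  rw [dif_pos h.2]

lemma B10_ex_supp (f : N → ℂ) (g : Γ) (hg : g ∉ N) : B10_ex N f g = 0 := by
  unfold B10_ex
  rw [dif_neg hg]

lemma B10_ex_res (φ : Γ → ℂ) (hφ : ∀ g, g ∉ N → φ g = 0) : B10_ex N (B10_res N φ) = φ := by
  funext g
  by_cases hg : g ∈ N
  · unfold B10_res B10_ex
    rw [dif_pos hg]
  · rw [B10_ex_supp N _ g hg, hφ g hg]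

lemma B10_res_inj (φ φ' : Γ → ℂ) (hφ : ∀ g, g ∉ N → φ g = 0) (hφ' : ∀ g, g ∉ N → φ' g = 0)
    (h : B10_res N φ = B10_res N φ') : φ = φ' := by
  rw [← B10_ex_res N φ hφ, ← B10_ex_res N φ' hφ', h]

lemma B10_res_conj (ψ : Γ → ℂ) (n : N) :
    B10_res N (funMap (MulAut.conj (n : Γ)) ψ) = funMap (MulAut.conj n) (B10_res N ψ) := by
  funext g
  unfold B10_res funMap
  rw [MulAut.conj_inv_apply, MulAut.conj_inv_apply]
  rfl

lemma B10_conj_supp (ψ : Γ → ℂ) (hψ : ∀ g, g ∉ N → ψ g = 0) (n : Γ) (hn : n ∈ N) (g : Γ)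
    (hg : g ∉ N) : funMap (MulAut.conj n) ψ g = 0 := by
  unfold funMap
  rw [MulAut.conj_inv_apply]
  apply hψ
  intro h
  apply hg
  have h2 : n * (n⁻¹ * g * n) * n⁻¹ ∈ N := N.mul_mem (N.mul_mem hn h) (N.inv_mem hn)
  have h3 : n * (n⁻¹ * g * n) * n⁻¹ = g := by group
  rw [h3] at h2
  exact h2

lemma B10_irr (φ : Γ → ℂ) : φ ∈ IrrOn N ↔ (∀ g, g ∉ N → φ g = 0) ∧ B10_res N φ ∈ Irr N :=
  Iff.rfl

lemma B10_ex_irr (f : N → ℂ) (hf : f ∈ Irr N) : B10_ex N f ∈ IrrOn N := by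
  rw [B10_irr]
  refine ⟨fun g hg => B10_ex_supp N f g hg, ?_⟩
  rw [B10_res_ex]
  exact hf

/-- the subgroup `G'.subgroupOf N` is isomorphic to `N ⊓ G'` -/
def B10_iso (G' : Subgroup Γ) : (G'.subgroupOf N : Subgroup N) ≃* (N ⊓ G' : Subgroup Γ) where
  toFun x := ⟨((x : N) : Γ), ⟨(x : N).2, x.2⟩⟩
  invFun y := ⟨⟨(y : Γ), y.2.1⟩, y.2.2⟩
  left_inv x := rfl
  right_inv y := rfl
  map_mul' x y := rfl

lemma B10_irrK (hIRT : IRT_stmt) (G' : Subgroup Γ) (ψ : Γ → ℂ) (hψ : ∀ g, g ∉ N → ψ g = 0) :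
    ψ ∈ IrrOn (N ⊓ G') ↔ B10_res N ψ ∈ IrrOn (G'.subgroupOf N) := by
  constructor
  · rintro ⟨h1, h2⟩
    refine ⟨?_, ?_⟩
    · intro g hg
      apply h1
      intro h
      exact hg h.2
    · exact hIRT _ _ (B10_iso N G') _ h2
  · rintro ⟨h1, h2⟩
    refine ⟨?_, ?_⟩
    · intro g hg
      by_cases hgN : g ∈ N
      · exact h1 ⟨g, hgN⟩ (fun h => hg ⟨hgN, h⟩)
      · exact hψ g hgN
    · exact hIRT _ _ (B10_iso N G').symm _ h2

lemma B10_supp_of_irr (G' : Subgroup Γ) (ψ : Γ → ℂ) (hψ : ψ ∈ IrrOn (N ⊓ G')) (g : Γ)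
    (hg : g ∉ N) : ψ g = 0 := hψ.1 g (fun h => hg h.1)

lemma B10_over (G' : Subgroup Γ) (φ ψ : Γ → ℂ) (hψ : ∀ g, g ∉ N → ψ g = 0) :
    OverP (N ⊓ G') N φ ψ ↔ OverP (G'.subgroupOf N) ⊤ (B10_res N φ) (B10_res N ψ) := by
  have key : ∀ x : N, ∑ᶠ ψ' ∈ {ψ' : Γ → ℂ | ∃ n ∈ N, ψ' = funMap (MulAut.conj n) ψ}, ψ' (x : Γ) =
      ∑ᶠ ψ' ∈ {ψ' : N → ℂ | ∃ n ∈ (⊤ : Subgroup N), ψ' = funMap (MulAut.conj n) (B10_res N ψ)},
        ψ' x := by
    intro x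
    refine finsum_mem_eq_of_bijOn (B10_res N) ⟨?_, ?_, ?_⟩ ?_
    · rintro ψ' ⟨n, hn, rfl⟩
      exact ⟨⟨n, hn⟩, Subgroup.mem_top _, B10_res_conj N ψ ⟨n, hn⟩⟩
    · rintro ψ1 ⟨n, hn, rfl⟩ ψ2 ⟨m, hm, rfl⟩ h
      exact B10_res_inj N _ _ (B10_conj_supp N ψ hψ n hn) (B10_conj_supp N ψ hψ m hm) h
    · rintro f ⟨n, -, rfl⟩
      exact ⟨funMap (MulAut.conj (n : Γ)) ψ, ⟨n, n.2, rfl⟩, B10_res_conj N ψ n⟩
    · intro ψ' _
      rfl
  constructor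
  · intro h x hx
    have h1 := h (x : Γ) ⟨x.2, hx⟩
    rw [key x] at h1
    exact h1
  · intro h x hx
    have h1 := h ⟨x, hx.1⟩ hx.2
    rw [← key] at h1
    exact h1

lemma B10_stab (ψ : Γ → ℂ) (hψ : ∀ g, g ∉ N → ψ g = 0) :
    (stF (⊤ : Subgroup N) (B10_res N ψ)).map N.subtype = stF N ψ := by
  ext g
  constructor
  · rintro ⟨n, ⟨-, hn⟩, rfl⟩
    refine ⟨n.2, ?_⟩
    apply B10_res_inj N _ _ (B10_conj_supp N ψ hψ _ n.2) hψ
    exact (B10_res_conj N ψ n).trans hn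
  · rintro ⟨h1, h2⟩
    refine ⟨⟨g, h1⟩, ⟨Subgroup.mem_top _, ?_⟩, rfl⟩
    rw [← B10_res_conj]
    exact congrArg (B10_res N) h2

end

theorem B10 (hIRT : IRT_stmt) (hB0 : B0_stmt) (hB9 : B9_stmt) : B10_stmt := by
  intro Γ _ _ G' N hcyc
  have hK : CycQ (G'.subgroupOf N) := hB0.2.1 Γ G' N hcyc
  obtain ⟨h1, h2, h3⟩ := hB9 N (G'.subgroupOf N) hK
  refine ⟨?_, ?_, ?_⟩
  · intro φ hφ
    obtain ⟨f, hf, hov⟩ := h1 (B10_res N φ) hφ.2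
    have hs := B10_ex_supp N f
    refine ⟨B10_ex N f, ?_, ?_⟩
    · rw [B10_irrK N hIRT G' _ hs, B10_res_ex]
      exact hf
    · rw [B10_over N G' _ _ hs, B10_res_ex]
      exact hov
  · intro ψ hψ
    have hs := B10_supp_of_irr N G' ψ hψ
    have h4 := h2 (B10_res N ψ) ((B10_irrK N hIRT G' ψ hs).1 hψ)
    have e1 : Nat.card {φ : Γ → ℂ // φ ∈ IrrOn N ∧ OverP (N ⊓ G') N φ ψ} =
        Nat.card {φ : N → ℂ // φ ∈ Irr N ∧ OverP (G'.subgroupOf N) ⊤ φ (B10_res N ψ)} := by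
      refine Nat.card_congr
        { toFun := fun φ => ⟨B10_res N φ.1, φ.2.1.2, (B10_over N G' _ _ hs).1 φ.2.2⟩
          invFun := fun f => ⟨B10_ex N f.1, B10_ex_irr N f.1 f.2.1, ?_⟩
          left_inv := ?_
          right_inv := ?_ }
      · rw [B10_over N G' _ _ hs, B10_res_ex]
        exact f.2.2
      · intro φ
        exact Subtype.ext (B10_ex_res N φ.1 φ.2.1.1)
      · intro f
        exact Subtype.ext (B10_res_ex N f.1)
    have e2 : Nat.card (N ⊓ G' : Subgroup Γ) = Nat.card (G'.subgroupOf N) :=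
      (Nat.card_congr (B10_iso N G').toEquiv).symm
    have e3 : Nat.card (stF N ψ) = Nat.card (stF (⊤ : Subgroup N) (B10_res N ψ)) := by
      rw [← B10_stab N ψ hs]
      exact Subgroup.card_map_of_injective N.subtype_injective
    rw [e1, e2, e3]
    exact h4
  · intro φ ψ hψ ψ' hψ' hov hov'
    have hs := B10_supp_of_irr N G' ψ hψ
    have hs' := B10_supp_of_irr N G' ψ' hψ'
    obtain ⟨n, hn⟩ := h3 (B10_res N φ) (B10_res N ψ) ((B10_irrK N hIRT G' ψ hs).1 hψ)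
      (B10_res N ψ') ((B10_irrK N hIRT G' ψ' hs').1 hψ') ((B10_over N G' _ _ hs).1 hov)
      ((B10_over N G' _ _ hs').1 hov')
    refine ⟨(n : Γ), n.2, ?_⟩
    apply B10_res_inj N _ _ hs' (B10_conj_supp N ψ hs _ n.2)
    rw [hn, B10_res_conj]

end Pool.Agent.DI
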